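import Mathlib

set_option autoImplicit false

namespace Pool.Agent.Results.MP_205740_an.NoComparison

open MeasureTheory Real

/-- A `2π`-periodic weight function: measurable, `2π`-periodic, nonnegative, with
`0 < ∫_{-π}^{π} W < ∞`. -/
structure IsWeight (W : ℝ → ℝ) : Prop where
  meas : Measurable W
  per : Function.Periodic W (2 * π)
  nonneg : ∀ θ, 0 ≤ W θ
  integrable : IntervalIntegrable W volume (-π) π
  pos : 0 < ∫ θ in (-π)..π, W θ

/-- The real trigonometric polynomial `a₀ + Σ_{k=1}^n (a_k cos kθ + b_k sin kθ)` of degree at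
most `n`. -/
noncomputable def trig (n : ℕ) (a b : ℕ → ℝ) (θ : ℝ) : ℝ :=
  a 0 + ∑ k ∈ Finset.Icc 1 n, (a k * cos (k * θ) + b k * sin (k * θ))

/-- There is a Chebyshev-type trigonometric quadrature of degree `n` for `W` with `N` nodes. -/
def HasQuad (W : ℝ → ℝ) (n N : ℕ) : Prop :=
  ∃ (node : Fin N → ℝ) (lam : ℝ), ∀ a b : ℕ → ℝ,
    (∫ θ in (-π)..π, trig n a b θ * W θ) = lam * ∑ i, trig n a b (node i)

/-- `N^{trig}_W(n)`: the least number of nodes of a Chebyshev-type quadrature of degree `n` for `W`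
(in `ℕ∞`). -/
noncomputable def Ntrig (W : ℝ → ℝ) (n : ℕ) : ℕ∞ := ⨅ (N : ℕ) (_ : HasQuad W n N), (N : ℕ∞)

/-- The weight: the indicator function of `{θ : |sin θ| ≤ η}`. -/
noncomputable def wt (η : ℝ) (θ : ℝ) : ℝ := if |sin θ| ≤ η then 1 else 0

/-- The sign of `cos θ`. -/
noncomputable def sg (θ : ℝ) : ℝ := if 0 ≤ cos θ then 1 else -1

lemma anti_integral_zero (f : ℝ → ℝ) (hf : ∀ θ, f (θ + π) = - f θ) :
    (∫ θ in (-π)..π, f θ) = 0 := by
  have hper : Function.Periodic f (2 * π) := by
    intro θ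
    rw [show θ + 2 * π = (θ + π) + π by ring, hf, hf, neg_neg]
  have h1 : (∫ θ in (-π)..π, f (θ + π)) = ∫ θ in (-π)..π, f θ := by
    rw [intervalIntegral.integral_comp_add_right (fun x => f x) π]
    have := hper.intervalIntegral_add_eq (-π + π) (-π)
    rw [show -π + π + 2 * π = π + π by ring, show -π + 2 * π = π by ring] at this
    exact this
  have h2 : (∫ θ in (-π)..π, f (θ + π)) = - ∫ θ in (-π)..π, f θ := by
    simp_rw [hf]
    exact intervalIntegral.integral_neg
  linarith

lemma odd_integral_zero (f : ℝ → ℝ) (hf : ∀ θ, f (-θ) = - f θ) :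
    (∫ θ in (-π)..π, f θ) = 0 := by
  have h1 : (∫ θ in (-π)..π, f (-θ)) = ∫ θ in (-π)..π, f θ := by
    rw [intervalIntegral.integral_comp_neg (fun x => f x), neg_neg]
  have h2 : (∫ θ in (-π)..π, f (-θ)) = - ∫ θ in (-π)..π, f θ := by
    simp_rw [hf]
    exact intervalIntegral.integral_neg
  linarith

lemma wt_meas (η : ℝ) : Measurable (wt η) := by
  unfold wt
  refine Measurable.ite ?_ measurable_const measurable_const
  exact measurableSet_le (by fun_prop) measurable_const

lemma sg_meas : Measurable sg := by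
  unfold sg
  refine Measurable.ite ?_ measurable_const measurable_const
  exact measurableSet_le measurable_const (by fun_prop)

lemma wt_nonneg (η θ : ℝ) : 0 ≤ wt η θ := by unfold wt; split_ifs <;> norm_num
lemma wt_le (η θ : ℝ) : wt η θ ≤ 1 := by unfold wt; split_ifs <;> norm_num

lemma wt_pi (η θ : ℝ) : wt η (θ + π) = wt η θ := by
  unfold wt; rw [sin_add_pi, abs_neg]

lemma wt_neg (η θ : ℝ) : wt η (-θ) = wt η θ := by
  unfold wt; rw [sin_neg, abs_neg]

lemma sg_abs (θ : ℝ) : |sg θ| = 1 := by unfold sg; split_ifs <;> simp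

/-- Bounded measurable functions are interval integrable. -/
lemma ii (f : ℝ → ℝ) (hf : Measurable f) (B : ℝ) (hB : ∀ θ, |f θ| ≤ B) :
    IntervalIntegrable f volume (-π) π := by
  refine (intervalIntegrable_const (c := B)).mono_fun hf.aestronglyMeasurable ?_
  filter_upwards with θ
  rw [Real.norm_eq_abs, Real.norm_eq_abs]
  exact (hB θ).trans (le_abs_self B)

lemma wt_isWeight (η : ℝ) (hη : 0 < η) (hη1 : η < 1) : IsWeight (wt η) := by
  refine ⟨wt_meas η, ?_, wt_nonneg η, ?_, ?_⟩
  · intro θ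
    rw [show θ + 2 * π = (θ + π) + π by ring, wt_pi, wt_pi]
  · exact ii _ (wt_meas η) 1 (fun θ => by rw [abs_of_nonneg (wt_nonneg η θ)]; exact wt_le η θ)
  · have hpi := Real.pi_gt_three
    have hI : ∀ a b : ℝ, IntervalIntegrable (wt η) volume a b := by
      intro a b
      refine (intervalIntegrable_const (c := (1 : ℝ))).mono_fun
        (wt_meas η).aestronglyMeasurable ?_
      filter_upwards with θ
      rw [Real.norm_eq_abs, Real.norm_eq_abs, abs_of_nonneg (wt_nonneg η θ), abs_one]
      exact wt_le η θ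
    rw [← intervalIntegral.integral_add_adjacent_intervals (hI (-π) 0) (hI 0 π),
      ← intervalIntegral.integral_add_adjacent_intervals (hI 0 η) (hI η π)]
    have h1 : 0 ≤ ∫ θ in (-π)..0, wt η θ :=
      intervalIntegral.integral_nonneg (by linarith) (fun θ _ => wt_nonneg η θ)
    have h2 : 0 ≤ ∫ θ in η..π, wt η θ :=
      intervalIntegral.integral_nonneg (by linarith) (fun θ _ => wt_nonneg η θ)
    have h3 : (∫ θ in (0 : ℝ)..η, (1 : ℝ)) ≤ ∫ θ in (0 : ℝ)..η, wt η θ := by
      apply intervalIntegral.integral_mono_on hη.le intervalIntegrable_const (hI 0 η)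
      intro θ hθ
      unfold wt
      rw [if_pos]
      rw [abs_of_nonneg (sin_nonneg_of_nonneg_of_le_pi hθ.1 (by linarith [hθ.2]))]
      exact (sin_le hθ.1).trans hθ.2
    simp at h3
    linarith

lemma trig_two (a b : ℕ → ℝ) (θ : ℝ) : trig 2 a b θ
    = a 0 + a 1 * cos θ + b 1 * sin θ + a 2 * cos (2 * θ) + b 2 * sin (2 * θ) := by
  unfold trig
  rw [show Finset.Icc 1 2 = {1, 2} from rfl, Finset.sum_pair (by norm_num)]
  simp only [Nat.cast_one, one_mul, Nat.cast_ofNat]
  ring

/-- Four nodes suffice for degree `2` and the weight `wt η`. -/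
lemma wt_quad (η : ℝ) (hη : 0 < η) (hη1 : η < 1) : HasQuad (wt η) 2 4 := by
  have hW := wt_isWeight η hη hη1
  set A : ℝ := ∫ θ in (-π)..π, wt η θ with hA
  have hApos : 0 < A := hW.pos
  set D : ℝ := ∫ θ in (-π)..π, cos (2 * θ) * wt η θ with hD
  have hbd : ∀ f : ℝ → ℝ, Measurable f → (∀ θ, |f θ| ≤ 1) →
      IntervalIntegrable (fun θ => f θ * wt η θ) volume (-π) π := by
    intro f hf hf1
    refine ii _ (hf.mul (wt_meas η)) 1 (fun θ => ?_)
    rw [abs_mul, abs_of_nonneg (wt_nonneg η θ)]
    calc |f θ| * wt η θ ≤ 1 * 1 :=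
          mul_le_mul (hf1 θ) (wt_le η θ) (wt_nonneg η θ) (by norm_num)
      _ = 1 := by norm_num
  have hc1 := hbd (fun θ => cos θ) (by fun_prop) (fun θ => abs_cos_le_one θ)
  have hs1 := hbd (fun θ => sin θ) (by fun_prop) (fun θ => abs_sin_le_one θ)
  have hc2 := hbd (fun θ => cos (2 * θ)) (by fun_prop) (fun θ => abs_cos_le_one _)
  have hs2 := hbd (fun θ => sin (2 * θ)) (by fun_prop) (fun θ => abs_sin_le_one _)
  have hDle : D ≤ A := by
    apply intervalIntegral.integral_mono_on (by linarith [Real.pi_pos]) hc2 hW.integrable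
    intro θ _
    nlinarith [cos_le_one (2 * θ), wt_nonneg η θ]
  have hDge : -A ≤ D := by
    rw [hA, ← intervalIntegral.integral_neg]
    apply intervalIntegral.integral_mono_on (by linarith [Real.pi_pos]) hW.integrable.neg hc2
    intro θ _
    rw [Pi.neg_apply]
    nlinarith [neg_one_le_cos (2 * θ), wt_nonneg η θ]
  set t : ℝ := arccos (D / A) / 2 with ht
  have hcos : cos (2 * t) = D / A := by
    rw [ht, mul_div_cancel₀ _ (by norm_num : (2 : ℝ) ≠ 0)]
    apply cos_arccos
    · rw [le_div_iff₀ hApos]; linarith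
    · rw [div_le_one hApos]; exact hDle
  refine ⟨![t, -t, π + t, π - t], A / 4, ?_⟩
  intro a b
  have e1 : (∫ θ in (-π)..π, cos θ * wt η θ) = 0 := by
    apply anti_integral_zero
    intro θ; rw [cos_add_pi, wt_pi]; ring
  have e2 : (∫ θ in (-π)..π, sin θ * wt η θ) = 0 := by
    apply odd_integral_zero
    intro θ; rw [sin_neg, wt_neg]; ring
  have e3 : (∫ θ in (-π)..π, sin (2 * θ) * wt η θ) = 0 := by
    apply odd_integral_zero
    intro θ; rw [show 2 * -θ = -(2 * θ) by ring, sin_neg, wt_neg]; ring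
  have hexp : (∫ θ in (-π)..π, trig 2 a b θ * wt η θ) = a 0 * A + a 2 * D := by
    have : ∀ θ, trig 2 a b θ * wt η θ = a 0 * wt η θ + a 1 * (cos θ * wt η θ)
        + b 1 * (sin θ * wt η θ) + a 2 * (cos (2 * θ) * wt η θ)
        + b 2 * (sin (2 * θ) * wt η θ) := by
      intro θ; rw [trig_two]; ring
    simp_rw [this]
    rw [intervalIntegral.integral_add, intervalIntegral.integral_add,
      intervalIntegral.integral_add, intervalIntegral.integral_add,
      intervalIntegral.integral_const_mul, intervalIntegral.integral_const_mul,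
      intervalIntegral.integral_const_mul, intervalIntegral.integral_const_mul,
      intervalIntegral.integral_const_mul, e1, e2, e3]
    · simp only [mul_zero, add_zero]; rfl
    · exact hW.integrable.const_mul _
    · exact hc1.const_mul _
    · exact (hW.integrable.const_mul _).add (hc1.const_mul _)
    · exact hs1.const_mul _
    · exact ((hW.integrable.const_mul _).add (hc1.const_mul _)).add (hs1.const_mul _)
    · exact hc2.const_mul _
    · exact (((hW.integrable.const_mul _).add (hc1.const_mul _)).add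
        (hs1.const_mul _)).add (hc2.const_mul _)
    · exact hs2.const_mul _
  rw [hexp]
  simp only [Fin.sum_univ_four, trig_two, Matrix.cons_val_zero, Matrix.cons_val_one,
    Matrix.cons_val]
  have c1 : cos (2 * -t) = cos (2 * t) := by rw [show 2 * -t = -(2 * t) by ring, cos_neg]
  have c2 : cos (2 * (π + t)) = cos (2 * t) := by
    rw [show 2 * (π + t) = 2 * t + 2 * π by ring, cos_add_two_pi]
  have c3 : cos (2 * (π - t)) = cos (2 * t) := by
    rw [show 2 * (π - t) = 2 * π - 2 * t by ring, cos_two_pi_sub]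
  have s1 : sin (2 * -t) = - sin (2 * t) := by rw [show 2 * -t = -(2 * t) by ring, sin_neg]
  have s2 : sin (2 * (π + t)) = sin (2 * t) := by
    rw [show 2 * (π + t) = 2 * t + 2 * π by ring, sin_add_two_pi]
  have s3 : sin (2 * (π - t)) = - sin (2 * t) := by
    rw [show 2 * (π - t) = 2 * π - 2 * t by ring, sin_two_pi_sub]
  have k1 : cos (π + t) = - cos t := by rw [add_comm, cos_add_pi]
  have k2 : sin (π + t) = - sin t := by rw [add_comm, sin_add_pi]
  rw [c1, c2, c3, s1, s2, s3, k1, k2, cos_pi_sub, sin_pi_sub, cos_neg, sin_neg, hcos]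
  field_simp
  ring

/-- The perturbed weight `h W`, where `h = u` on `{cos θ ≥ 0}` and `h = v` on `{cos θ < 0}`. -/
noncomputable def hh (u v : ℝ) (θ : ℝ) : ℝ := if 0 ≤ cos θ then u else v

lemma hh_eq (u v θ : ℝ) : hh u v θ = (u + v) / 2 + (u - v) / 2 * sg θ := by
  unfold hh sg; split_ifs <;> ring

lemma sg_sq (θ : ℝ) : sg θ * sg θ = 1 := by unfold sg; split_ifs <;> norm_num

lemma sgwt_anti (η : ℝ) (hη1 : η < 1) (θ : ℝ) :
    sg (θ + π) * wt η (θ + π) = - (sg θ * wt η θ) := by
  rw [wt_pi]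
  by_cases hw : |sin θ| ≤ η
  · have hc : cos θ ≠ 0 := by
      intro h
      have := sin_sq_add_cos_sq θ
      rw [h] at this
      have h2 : |sin θ| ^ 2 = 1 := by rw [sq_abs]; linarith
      have h3 : |sin θ| = 1 := by
        have := abs_nonneg (sin θ); nlinarith
      linarith
    have : sg (θ + π) = - sg θ := by
      unfold sg
      rw [cos_add_pi]
      rcases lt_or_gt_of_ne hc with h | h
      · rw [if_pos (by linarith), if_neg (by linarith)]; norm_num
      · rw [if_neg (by linarith), if_pos h.le]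
    rw [this]; ring
  · unfold wt; rw [if_neg hw]; ring

/-- On the support of the weight, `cos θ` is `η²`-close to its sign. -/
lemma cos_close (θ : ℝ) : |cos θ - sg θ| ≤ sin θ ^ 2 := by
  have h := sin_sq_add_cos_sq θ
  have h1 := cos_le_one θ
  have h2 := neg_one_le_cos θ
  unfold sg
  split_ifs with hc
  · rw [abs_le]; constructor <;> nlinarith
  · rw [abs_le]; push Not at hc; constructor <;> nlinarith

/-- Lower bound mechanism: a degree-`2` quadrature with `N` nodes for the perturbed weight forces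
`(u-v)/(u+v)` to be `2η²`-close to a fraction `(2k-N)/N`. -/
lemma quad_forces (η u v : ℝ) (hη : 0 < η) (hη1 : η < 1) (hu : 0 < u) (hv : 0 < v) (N : ℕ)
    (hq : HasQuad (fun θ => hh u v θ * wt η θ) 2 N) :
    1 ≤ N ∧ ∃ k : ℕ, k ≤ N ∧ |(2 * (k : ℝ) - N) / N - (u - v) / (u + v)| ≤ 2 * η ^ 2 := by
  obtain ⟨node, lam, hq⟩ := hq
  have hW := wt_isWeight η hη hη1
  set A : ℝ := ∫ θ in (-π)..π, wt η θ with hA
  have hApos : 0 < A := hW.pos
  have hbd : ∀ (f : ℝ → ℝ) (B : ℝ), Measurable f → (∀ θ, |f θ| ≤ B) →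
      IntervalIntegrable (fun θ => f θ * wt η θ) volume (-π) π := by
    intro f B hf hf1
    refine ii _ (hf.mul (wt_meas η)) B (fun θ => ?_)
    rw [abs_mul, abs_of_nonneg (wt_nonneg η θ)]
    calc |f θ| * wt η θ ≤ B * 1 :=
          mul_le_mul (hf1 θ) (wt_le η θ) (wt_nonneg η θ) ((abs_nonneg _).trans (hf1 θ))
      _ = B := by ring
  have hsgI := hbd sg 1 sg_meas (fun θ => (sg_abs θ).le)
  have hsg0 : (∫ θ in (-π)..π, sg θ * wt η θ) = 0 := anti_integral_zero _ (sgwt_anti η hη1)
  -- total mass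
  have hA' : (∫ θ in (-π)..π, hh u v θ * wt η θ) = (u + v) / 2 * A := by
    have : ∀ θ, hh u v θ * wt η θ = (u + v) / 2 * wt η θ + (u - v) / 2 * (sg θ * wt η θ) := by
      intro θ; rw [hh_eq]; ring
    simp_rw [this]
    rw [intervalIntegral.integral_add (hW.integrable.const_mul _) (hsgI.const_mul _),
      intervalIntegral.integral_const_mul, intervalIntegral.integral_const_mul, hsg0]
    ring
  have hS' : (∫ θ in (-π)..π, sg θ * (hh u v θ * wt η θ)) = (u - v) / 2 * A := by
    have : ∀ θ, sg θ * (hh u v θ * wt η θ) = (u - v) / 2 * wt η θ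
        + (u + v) / 2 * (sg θ * wt η θ) := by
      intro θ; rw [hh_eq]
      have := sg_sq θ
      linear_combination ((u - v) / 2 * wt η θ) * this
    simp_rw [this]
    rw [intervalIntegral.integral_add (hW.integrable.const_mul _) (hsgI.const_mul _),
      intervalIntegral.integral_const_mul, intervalIntegral.integral_const_mul, hsg0]
    ring
  set A' : ℝ := (u + v) / 2 * A with hA'def
  have hA'pos : 0 < A' := by positivity
  -- the three test polynomials
  have q0 := hq (fun k => if k = 0 then 1 else 0) (fun _ => 0)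
  have q1 := hq (fun k => if k = 1 then 1 else 0) (fun _ => 0)
  have q2 := hq (fun k => if k = 0 then 1 / 2 else if k = 2 then -1 / 2 else 0) (fun _ => 0)
  simp only [trig_two, one_ne_zero, if_true, if_false, zero_mul, add_zero, one_mul,
    OfNat.ofNat_ne_zero, OfNat.zero_ne_ofNat, OfNat.one_ne_ofNat, OfNat.ofNat_ne_one,
    zero_ne_one, zero_add, Finset.sum_const, Finset.card_univ, Fintype.card_fin,
    nsmul_eq_mul, mul_one] at q0 q1 q2
  rw [hA'] at q0
  have hsin : ∀ θ : ℝ, 1 / 2 + -1 / 2 * cos (2 * θ) = sin θ ^ 2 := by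
    intro θ
    rw [cos_two_mul]
    have := sin_sq_add_cos_sq θ
    linarith
  have q2 : (∫ θ in (-π)..π, sin θ ^ 2 * (hh u v θ * wt η θ))
      = lam * ∑ i, sin (node i) ^ 2 := by
    calc (∫ θ in (-π)..π, sin θ ^ 2 * (hh u v θ * wt η θ))
        = ∫ θ in (-π)..π, (1 / 2 + -1 / 2 * cos (2 * θ)) * (hh u v θ * wt η θ) := by
          congr 1; ext θ; rw [← hsin]
      _ = lam * ∑ x, (1 / 2 + -1 / 2 * cos (2 * node x)) := q2
      _ = _ := by congr 1; exact Finset.sum_congr rfl (fun i _ => hsin _)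
  have hN : 1 ≤ N := by
    rcases Nat.eq_zero_or_pos N with h | h
    · subst h
      simp at q0
      linarith
    · exact h
  refine ⟨hN, ?_⟩
  have hNpos : (0 : ℝ) < N := by exact_mod_cast hN
  have hlam : 0 < lam := by
    by_contra hneg
    push Not at hneg
    nlinarith
  -- integrability of test functions against hW
  have hhm : Measurable (hh u v) := by
    unfold hh
    refine Measurable.ite ?_ measurable_const measurable_const
    exact measurableSet_le measurable_const (by fun_prop)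
  have hhpos : ∀ θ, 0 ≤ hh u v θ := by
    intro θ; unfold hh; split_ifs <;> positivity
  have hhle : ∀ θ, hh u v θ ≤ u + v := by
    intro θ; unfold hh; split_ifs <;> linarith
  have hI : ∀ (f : ℝ → ℝ), Measurable f → (∀ θ, |f θ| ≤ 1) →
      IntervalIntegrable (fun θ => f θ * (hh u v θ * wt η θ)) volume (-π) π := by
    intro f hf hf1
    have := hbd (fun θ => f θ * hh u v θ) (u + v) (hf.mul hhm) (fun θ => by
      rw [abs_mul, abs_of_nonneg (hhpos θ)]
      calc |f θ| * hh u v θ ≤ 1 * (u + v) :=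
            mul_le_mul (hf1 θ) (hhle θ) (hhpos θ) (by norm_num)
        _ = u + v := by ring)
    refine this.congr (fun θ _ => ?_)
    ring
  have hIW : IntervalIntegrable (fun θ => hh u v θ * wt η θ) volume (-π) π := by
    have := hI (fun _ => 1) measurable_const (fun θ => by simp)
    refine this.congr (fun θ _ => ?_)
    simp
  have hpi : -π ≤ π := by linarith [Real.pi_pos]
  have hHW : ∀ θ, 0 ≤ hh u v θ * wt η θ := fun θ => mul_nonneg (hhpos θ) (wt_nonneg η θ)
  -- sin² test
  have hsupp : ∀ θ, sin θ ^ 2 * (hh u v θ * wt η θ) ≤ η ^ 2 * (hh u v θ * wt η θ) := by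
    intro θ
    by_cases hw : |sin θ| ≤ η
    · apply mul_le_mul_of_nonneg_right _ (hHW θ)
      rw [← sq_abs]
      exact pow_le_pow_left₀ (abs_nonneg _) hw 2
    · unfold wt; rw [if_neg hw]; simp
  have t2 : (∫ θ in (-π)..π, sin θ ^ 2 * (hh u v θ * wt η θ)) ≤ η ^ 2 * A' := by
    rw [← hA', ← intervalIntegral.integral_const_mul]
    apply intervalIntegral.integral_mono_on hpi _ (hIW.const_mul _) (fun θ _ => hsupp θ)
    refine hI (fun θ => sin θ ^ 2) (by fun_prop) (fun θ => ?_)
    rw [abs_of_nonneg (sq_nonneg _)]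
    nlinarith [sin_sq_add_cos_sq θ, sq_nonneg (cos θ)]
  -- cos test
  have t1 : |(∫ θ in (-π)..π, cos θ * (hh u v θ * wt η θ)) - (u - v) / 2 * A| ≤ η ^ 2 * A' := by
    rw [← hS', ← intervalIntegral.integral_sub
      (hI (fun θ => cos θ) (by fun_prop) (fun θ => abs_cos_le_one θ))
      (hI sg sg_meas (fun θ => (sg_abs θ).le))]
    rw [← hA', ← intervalIntegral.integral_const_mul]
    have hb := intervalIntegral.norm_integral_le_of_norm_le (f := fun θ =>
      cos θ * (hh u v θ * wt η θ) - sg θ * (hh u v θ * wt η θ))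
      (g := fun θ => η ^ 2 * (hh u v θ * wt η θ)) hpi ?_ (hIW.const_mul _)
    · simpa [Real.norm_eq_abs] using hb
    · filter_upwards with θ _
      rw [Real.norm_eq_abs, ← sub_mul, abs_mul, abs_of_nonneg (hHW θ)]
      exact (mul_le_mul_of_nonneg_right (cos_close θ) (hHW θ)).trans (hsupp θ)
  rw [q2] at t2
  rw [q1] at t1
  have hA'lam : A' = lam * N := q0
  have hsum : ∑ i, sin (node i) ^ 2 ≤ η ^ 2 * N := by
    rw [hA'lam] at t2
    have : lam * (∑ i, sin (node i) ^ 2) ≤ lam * (η ^ 2 * N) := by linarith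
    exact le_of_mul_le_mul_left this hlam
  -- counting nodes with cos ≥ 0
  classical
  set k : ℕ := (Finset.univ.filter (fun i : Fin N => 0 ≤ cos (node i))).card with hk
  have hkN : k ≤ N := by
    calc k ≤ (Finset.univ : Finset (Fin N)).card := Finset.card_filter_le _ _
      _ = N := by simp
  have hsgsum : ∑ i, sg (node i) = 2 * (k : ℝ) - N := by
    have h1 : ∀ i, sg (node i) = 2 * (if 0 ≤ cos (node i) then (1 : ℝ) else 0) - 1 := by
      intro i; unfold sg; split_ifs <;> norm_num
    simp_rw [h1]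
    rw [Finset.sum_sub_distrib, ← Finset.mul_sum, Finset.sum_boole]
    simp [hk]
  have hcs : |∑ i, cos (node i) - (2 * (k : ℝ) - N)| ≤ η ^ 2 * N := by
    rw [← hsgsum, ← Finset.sum_sub_distrib]
    refine (Finset.abs_sum_le_sum_abs _ _).trans (le_trans ?_ hsum)
    exact Finset.sum_le_sum (fun i _ => cos_close (node i))
  refine ⟨k, hkN, ?_⟩
  -- combine
  have hx : (u - v) / 2 * A = (u - v) / (u + v) * (lam * N) := by
    rw [← hA'lam, hA'def]
    field_simp
  rw [hx, hA'lam] at t1
  have t1' : |∑ i, cos (node i) - (u - v) / (u + v) * N| ≤ η ^ 2 * N := by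
    have e : lam * ∑ i, cos (node i) - (u - v) / (u + v) * (lam * N)
        = lam * (∑ i, cos (node i) - (u - v) / (u + v) * N) := by ring
    rw [e, abs_mul, abs_of_pos hlam] at t1
    have : lam * |∑ i, cos (node i) - (u - v) / (u + v) * N| ≤ lam * (η ^ 2 * N) := by linarith
    exact le_of_mul_le_mul_left this hlam
  have t3 : |(2 * (k : ℝ) - N) - (u - v) / (u + v) * N| ≤ 2 * η ^ 2 * N := by
    have e : (2 * (k : ℝ) - N) - (u - v) / (u + v) * N
        = (∑ i, cos (node i) - (u - v) / (u + v) * N)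
          - (∑ i, cos (node i) - (2 * (k : ℝ) - N)) := by ring
    rw [e]
    refine (abs_sub _ _).trans ?_
    linarith
  have e2 : (2 * (k : ℝ) - N) / N - (u - v) / (u + v)
      = ((2 * (k : ℝ) - N) - (u - v) / (u + v) * N) / N := by
    field_simp
  rw [e2, abs_div, abs_of_pos hNpos, div_le_iff₀ hNpos]
  exact t3

/-- An irrational number stays at positive distance from all fractions `(2k-N)/N` with bounded
denominator. -/
lemma irr_gap (x : ℝ) (hx : Irrational x) (C : ℕ) :
    ∃ d : ℝ, 0 < d ∧ ∀ N k : ℕ, 1 ≤ N → N ≤ C → k ≤ N → d ≤ |(2 * (k : ℝ) - N) / N - x| := by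
  classical
  set s : Finset (ℕ × ℕ) := Finset.range (C + 1) ×ˢ Finset.range (C + 1) with hs
  have hne : s.Nonempty := ⟨(0, 0), by simp [hs]⟩
  obtain ⟨p, hp, hmin⟩ := s.exists_min_image (fun q => |(2 * (q.2 : ℝ) - q.1) / q.1 - x|) hne
  refine ⟨|(2 * (p.2 : ℝ) - p.1) / p.1 - x|, ?_, ?_⟩
  · rw [abs_pos, sub_ne_zero]
    intro h
    apply hx
    refine ⟨(2 * (p.2 : ℚ) - p.1) / p.1, ?_⟩
    rw [← h]; push_cast; rfl
  · intro N k hN hNC hk
    exact hmin (N, k) (by simp [hs]; omega)

/-- **The comparison of Q1 fails for all `0 < m < M`**: there is no constant `C` with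
`N^{trig}_{hW}(n) ≤ C N^{trig}_W(n)` for all `2π`-periodic weights `W`, all `2π`-periodic measurable
`h` with `m < h < M` and all `n ≥ 1`. -/
theorem result : ∀ m M : ℝ, 0 < m → m < M →
    ¬ ∃ C : ℝ, ∀ (W h : ℝ → ℝ) (n : ℕ), 1 ≤ n → IsWeight W → Measurable h →
      Function.Periodic h (2 * π) → (∀ᵐ θ, m < h θ ∧ h θ < M) →
      ((Ntrig (fun θ => h θ * W θ) n : ℕ∞) : ENNReal)
        ≤ ENNReal.ofReal C * ((Ntrig W n : ℕ∞) : ENNReal) := by
  intro m M hm hmM
  rintro ⟨C, hC⟩
  -- two values with irrational ratio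
  set v : ℝ := (m + M) / 2 with hv
  have hvpos : 0 < v := by rw [hv]; linarith
  obtain ⟨r, hr, hr1, hr2⟩ := exists_irrational_btwn
    (show m / v < M / v from div_lt_div_of_pos_right hmM hvpos)
  set u : ℝ := r * v with hu
  have hum : m < u := by rw [hu]; exact (div_lt_iff₀ hvpos).1 hr1
  have huM : u < M := by rw [hu]; exact (lt_div_iff₀ hvpos).1 hr2
  have hupos : 0 < u := hm.trans hum
  have hrpos : 0 < r := (div_pos hm hvpos).trans hr1
  have hirr : Irrational ((u - v) / (u + v)) := by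
    have e : (u - v) / (u + v) = 1 - 2 / (r + 1) := by
      rw [hu]
      have : r + 1 ≠ 0 := by positivity
      have h2 : r * v + v ≠ 0 := by positivity
      field_simp
      ring
    rw [e]
    have h1 : Irrational (r + 1) := by simpa using hr.add_natCast 1
    have h2 : Irrational ((2 : ℕ) / (r + 1)) := h1.natCast_div (by norm_num)
    have h3 : Irrational (((1 : ℕ) : ℝ) - (2 : ℕ) / (r + 1)) := h2.natCast_sub 1
    simpa using h3
  obtain ⟨K, hK⟩ := exists_nat_ge (4 * C)
  obtain ⟨d, hd, hgap⟩ := irr_gap _ hirr K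
  -- choose η
  set η : ℝ := min (1 / 2) (d / 4) with hη
  have hηpos : 0 < η := lt_min (by norm_num) (by positivity)
  have hη2 : η ≤ 1 / 2 := min_le_left _ _
  have hηd : η ≤ d / 4 := min_le_right _ _
  have hη1 : η < 1 := by linarith
  have hsmall : 2 * η ^ 2 < d := by nlinarith
  have hmeas : Measurable (hh u v) := by
    unfold hh
    refine Measurable.ite ?_ measurable_const measurable_const
    exact measurableSet_le measurable_const (by fun_prop)
  have hper : Function.Periodic (hh u v) (2 * π) := by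
    intro θ; unfold hh; rw [cos_add_two_pi]
  have hbounds : ∀ᵐ θ : ℝ, m < hh u v θ ∧ hh u v θ < M := by
    filter_upwards with θ
    unfold hh
    split_ifs
    · exact ⟨hum, huM⟩
    · rw [hv]; constructor <;> linarith
  have hfin := hC (wt η) (hh u v) 2 (by norm_num) (wt_isWeight η hηpos hη1) hmeas hper hbounds
  have h4 : Ntrig (wt η) 2 ≤ 4 := by
    unfold Ntrig
    exact iInf₂_le 4 (wt_quad η hηpos hη1)
  have hlow : ((K + 1 : ℕ) : ℕ∞) ≤ Ntrig (fun θ => hh u v θ * wt η θ) 2 := by
    unfold Ntrig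
    refine le_iInf₂ (fun N hN => ?_)
    obtain ⟨hN1, k, hk, hkd⟩ := quad_forces η u v hηpos hη1 hupos hvpos N hN
    by_contra hlt
    push Not at hlt
    have hNK : N ≤ K := by
      have : N < K + 1 := by exact_mod_cast hlt
      omega
    have := hgap N k hN1 hNK hk
    linarith
  have h5 : ((4 : ℕ∞) : ENNReal) = 4 := by norm_num
  have h6 : ENNReal.ofReal C * ((Ntrig (wt η) 2 : ℕ∞) : ENNReal) ≤ (K : ENNReal) := by
    calc ENNReal.ofReal C * ((Ntrig (wt η) 2 : ℕ∞) : ENNReal)
        ≤ ENNReal.ofReal C * ((4 : ℕ∞) : ENNReal) := by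
          gcongr
      _ = ENNReal.ofReal C * ENNReal.ofReal 4 := by rw [h5]; norm_num
      _ = ENNReal.ofReal (4 * C) := by
          rw [mul_comm, ← ENNReal.ofReal_mul (by norm_num)]
      _ ≤ ENNReal.ofReal K := ENNReal.ofReal_le_ofReal hK
      _ = (K : ENNReal) := ENNReal.ofReal_natCast K
  have h7 : ((K + 1 : ℕ) : ENNReal)
      ≤ ((Ntrig (fun θ => hh u v θ * wt η θ) 2 : ℕ∞) : ENNReal) := by
    have := ENat.toENNReal_le.2 hlow
    simpa using this
  have h8 : ((K + 1 : ℕ) : ENNReal) ≤ (K : ENNReal) := h7.trans (hfin.trans h6)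
  have h9 : K + 1 ≤ K := by exact_mod_cast h8
  omega

end Pool.Agent.Results.MP_205740_an.NoComparison
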